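import Mathlib

namespace Pool.Agent.Results.MP_dfec24_co.Counter

def t (b n : ℕ) : ℕ := (Nat.digits b n).sum % 2

def S (u : ℕ → ℕ) (n : ℕ) : ℕ := (u n + u (n + 1)) % 2

def factor (u : ℕ → ℕ) (a m : ℕ) : List ℕ := (List.range m).map (fun i => u (a + i))

lemma S2 (u : ℕ → ℕ) : S^[2] u = fun n => (u n + u (n + 2)) % 2 := by
  funext n
  simp only [Function.iterate_succ, Function.iterate_zero, Function.comp, id, S, add_assoc,
    Nat.reduceAdd]
  omega

lemma S4 (u : ℕ → ℕ) : S^[4] u = fun n => (u n + u (n + 4)) % 2 := by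
  funext n
  rw [show 4 = 2 + 2 from rfl, Function.iterate_add_apply, S2, S2]
  simp only [add_assoc]
  omega

lemma S8 (u : ℕ → ℕ) : S^[8] u = fun n => (u n + u (n + 8)) % 2 := by
  funext n
  rw [show 8 = 4 + 4 from rfl, Function.iterate_add_apply, S4, S4]
  simp only [add_assoc]
  omega

theorem result : ∃ b k a m : ℕ, 2 ≤ b ∧ 1 ≤ k ∧
    Set.ncard {p : List ℕ | p <:+: factor (S^[k] (t b)) a m ∧ p.reverse = p} < m + 1 := by
  refine ⟨6, 9, 0, 34, by norm_num, by norm_num, ?_⟩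
  rw [Function.iterate_succ_apply, S8]
  generalize hw : factor (fun n => (S (t 6) n + S (t 6) (n + 8)) % 2) 0 34 = w
  have e : {p : List ℕ | p <:+: w ∧ p.reverse = p} =
      ↑((w.tails.flatMap List.inits).filter (fun p => p.reverse = p)).toFinset := by
    ext p
    simp only [Set.mem_ofPred_eq, List.coe_toFinset, List.mem_filter, List.mem_flatMap,
      List.mem_tails, List.mem_inits, decide_eq_true_eq, List.infix_iff_prefix_suffix]
    constructor
    · rintro ⟨⟨q, h1, h2⟩, h3⟩; exact ⟨⟨q, h2, h1⟩, h3⟩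
    · rintro ⟨⟨q, h1, h2⟩, h3⟩; exact ⟨⟨q, h2, h1⟩, h3⟩
  rw [e, Set.ncard_coe_finset, ← hw]
  decide +kernel

end Pool.Agent.Results.MP_dfec24_co.Counter
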